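import Pool.Agent.Helper27.Nerve.Dom

/-!
Dominated families in a chain of function spaces.
-/

set_option autoImplicit false

open Finset

namespace Pool.Agent.Helper27.Nerve

theorem exists_dominated (B : ℕ) (n : ℕ) (hn : 1 ≤ n) : ∀ (C : ℝ) (M : ℕ), 2 ≤ C →
    ∃ N : ℕ, ∀ {X : Type} (S : Finset X) (h : ℕ → X → ℝ),
      (∀ k < n, ∀ c : ℕ → ℝ, ∀ T ⊆ S,
        (∀ x ∈ T, h k x = ∑ l ∈ range k, c l * h l x) → T.card ≤ B) → N ≤ S.card →
      ∃ (g : Fin n → X → ℝ) (A : Fin n → Finset X),
        (∀ k, ∃ c : ℕ → ℝ, ∀ x, g k x = ∑ l ∈ range n, c l * h l x) ∧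
        Dominated n C M S g A := by
  induction n, hn using Nat.le_induction with
  | base =>
    intro C M _
    refine ⟨M + B, fun {X} S h hh hS => ?_⟩
    classical
    refine ⟨fun _ => h 0, fun _ => S.filter fun x => h 0 x ≠ 0, ?_, ?_⟩
    · intro k
      refine ⟨fun _ => 1, fun x => ?_⟩
      simp
    · refine ⟨fun _ => Finset.filter_subset _ _, ?_, ?_, ?_, ?_⟩
      · intro k
        have h1 := hh 0 (by norm_num) (fun _ => 0) (S.filter fun x => ¬ h 0 x ≠ 0)
          (Finset.filter_subset _ _) (by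
            intro x hx
            have := (Finset.mem_filter.mp hx).2
            simpa using this)
        have h2 := Finset.card_filter_add_card_filter_not (s := S) (fun x => h 0 x ≠ 0)
        omega
      · intro k l hkl
        exact absurd (Subsingleton.elim k l) hkl
      · intro k x hx
        exact (Finset.mem_filter.mp hx).2
      · intro k l hkl
        exact absurd (Subsingleton.elim k l) hkl
  | succ n hn ih =>
    intro C M hC
    have hn' : (1 : ℝ) ≤ n := by exact_mod_cast hn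
    obtain ⟨L, hL⟩ := exists_nat_ge (8 * (n : ℝ) * ((M + B + 1 : ℕ) : ℝ) * C ^ 2)
    have hC'2 : (2 : ℝ) ≤ 16 * (n : ℝ) ^ 2 * ((M + B + 1 : ℕ) : ℝ) * C ^ 2 := by
      have h1 : (1 : ℝ) ≤ (n : ℝ) ^ 2 := by nlinarith
      have h2 : (1 : ℝ) ≤ ((M + B + 1 : ℕ) : ℝ) := by exact_mod_cast (by omega : 1 ≤ M + B + 1)
      have h3 : (1 : ℝ) ≤ C ^ 2 := by nlinarith
      have h4 : (1 : ℝ) ≤ (n : ℝ) ^ 2 * ((M + B + 1 : ℕ) : ℝ) := by nlinarith
      have h5 : (1 : ℝ) ≤ (n : ℝ) ^ 2 * ((M + B + 1 : ℕ) : ℝ) * C ^ 2 := by nlinarith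
      linarith
    obtain ⟨N, hN⟩ := ih (16 * (n : ℝ) ^ 2 * ((M + B + 1 : ℕ) : ℝ) * C ^ 2)
      (M + (2 * L + 1) * (M + B + 1) + 1) hC'2
    refine ⟨N, fun {X} S h hh hS => ?_⟩
    obtain ⟨u, A, hu, hD⟩ := hN S h (fun k hk => hh k (by omega)) hS
    choose d hd using hu
    obtain ⟨c, s, A', hA'⟩ := step (M' := M + (2 * L + 1) * (M + B + 1) + 1) hn hC B (M + B + 1) L
      rfl hL le_rfl (by omega) hD (h n) (by
        intro c T hT hTx
        refine hh n (by omega) (fun j => ∑ l, c l * d l j) T hT ?_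
        intro x hx
        rw [hTx x hx]
        simp_rw [Finset.sum_mul, hd, Finset.mul_sum]
        rw [Finset.sum_comm]
        exact Finset.sum_congr rfl fun _ _ => Finset.sum_congr rfl fun _ _ => by ring)
    refine ⟨_, A', ?_, hA'⟩
    intro k
    refine Fin.lastCases ?_ (fun k => ?_) k
    · refine ⟨fun j => if j = n then s else -s * ∑ l, c l * d l j, fun x => ?_⟩
      rw [Fin.snoc_last, Finset.sum_range_succ]
      dsimp only
      have h1 : ∀ j ∈ range n, (if j = n then s else -s * ∑ l, c l * d l j) * h j x =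
          -s * ∑ l, c l * (d l j * h j x) := by
        intro j hj
        have : j ≠ n := (Finset.mem_range.mp hj).ne
        rw [if_neg this, mul_assoc, Finset.sum_mul]
        congr 1
        exact Finset.sum_congr rfl fun _ _ => by ring
      rw [Finset.sum_congr rfl h1, if_pos rfl, ← Finset.mul_sum, Finset.sum_comm]
      simp_rw [← Finset.mul_sum, ← hd]
      ring
    · refine ⟨fun j => if j = n then 0 else d k j, fun x => ?_⟩
      rw [Fin.snoc_castSucc, Finset.sum_range_succ]
      dsimp only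
      rw [if_pos rfl, zero_mul, add_zero, hd]
      refine Finset.sum_congr rfl fun j hj => ?_
      have : j ≠ n := (Finset.mem_range.mp hj).ne
      rw [if_neg this]

/-- Choice of signs. -/
theorem Dominated.signs {X : Type} {n : ℕ} {C : ℝ} {M : ℕ} {S : Finset X} {g : Fin n → X → ℝ}
    {A : Fin n → Finset X} (hD : Dominated n C (2 * M) S g A) :
    ∃ (s : Fin n → ℝ) (A' : Fin n → Finset X),
      Dominated n C M S (fun k x => s k * g k x) A' ∧ ∀ k, ∀ x ∈ A' k, 0 < s k * g k x := by
  classical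
  have h1 : ∀ k, ∃ (s : ℝ) (T : Finset X), T ⊆ A k ∧ M ≤ T.card ∧ |s| = 1 ∧
      ∀ x ∈ T, 0 < s * g k x := by
    intro k
    have h2 := Finset.card_filter_add_card_filter_not (s := A k) (fun x => 0 < g k x)
    have h3 := hD.card k
    by_cases h4 : M ≤ ((A k).filter fun x => 0 < g k x).card
    · exact ⟨1, _, Finset.filter_subset _ _, h4, by simp, fun x hx => by
        rw [one_mul]; exact (Finset.mem_filter.mp hx).2⟩
    · refine ⟨-1, _, Finset.filter_subset (fun x => ¬ 0 < g k x) _, by omega, by simp,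
        fun x hx => ?_⟩
      have h5 := Finset.mem_filter.mp hx
      have h6 := hD.ne k x h5.1
      have h7 : g k x < 0 := lt_of_le_of_ne (not_lt.mp h5.2) h6
      linarith
  choose s T hT1 hT2 hs hT3 using h1
  refine ⟨s, T, ⟨fun k => (hT1 k).trans (hD.sub k), hT2,
    fun k l hkl => (hD.disj k l hkl).mono (hT1 k) (hT1 l), fun k x hx => (hT3 k x hx).ne', ?_⟩,
    hT3⟩
  intro k l hkl x hx
  rw [abs_mul, abs_mul, hs, hs, one_mul, one_mul]
  exact hD.dom k l hkl x (hT1 k hx)

end Pool.Agent.Helper27.Nerve
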