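import Mathlib

/-!
Dominated families: in a chain of function spaces whose nonzero members have few zeros on a large
finite set `S` one finds functions and large blocks of `S` such that on each block one function is
much larger than the others.
-/

set_option autoImplicit false

open Finset

namespace Pool.Agent.Helper27.Nerve

/-- On the block `A k` the function `g k` dominates the other functions by the factor `C`. -/
structure Dominated {X : Type} (n : ℕ) (C : ℝ) (M : ℕ) (S : Finset X) (g : Fin n → X → ℝ)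
    (A : Fin n → Finset X) : Prop where
  sub : ∀ k, A k ⊆ S
  card : ∀ k, M ≤ (A k).card
  disj : ∀ k l, k ≠ l → Disjoint (A k) (A l)
  ne : ∀ k, ∀ x ∈ A k, g k x ≠ 0
  dom : ∀ k l, k ≠ l → ∀ x ∈ A k, C * |g l x| ≤ |g k x|

variable {X : Type} {n : ℕ} {C C' : ℝ} {M M' : ℕ} {S : Finset X} {u : Fin n → X → ℝ}
  {A : Fin n → Finset X}

/-- Interpolation at one point of each block. -/
theorem interp (hD : Dominated n C' M' S u A) (hn : 1 ≤ n) (hC' : 2 * (n : ℝ) ≤ C') (h : X → ℝ)
    (a : Fin n → X) (ha : ∀ k, a k ∈ A k) :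
    ∃ c : Fin n → ℝ, ∀ k, ∑ l, c l * u l (a k) = h (a k) := by
  classical
  have hn' : (1 : ℝ) ≤ n := by exact_mod_cast hn
  have hCpos : 0 < C' := by linarith
  let U : Matrix (Fin n) (Fin n) ℝ := Matrix.of fun k l => u l (a k)
  have hdet : U.det ≠ 0 := by
    apply det_ne_zero_of_sum_row_lt_diag
    intro k
    have hk : 0 < |u k (a k)| := abs_pos.mpr (hD.ne k _ (ha k))
    have h1 : ∑ j ∈ Finset.univ.erase k, ‖U k j‖ ≤
        ∑ j ∈ Finset.univ.erase k, |u k (a k)| / C' := by
      refine Finset.sum_le_sum fun j hj => ?_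
      have hjk : k ≠ j := (Finset.ne_of_mem_erase hj).symm
      rw [Real.norm_eq_abs, le_div_iff₀ (by linarith), mul_comm]
      exact hD.dom k j hjk _ (ha k)
    refine lt_of_le_of_lt h1 ?_
    rw [Finset.sum_const, nsmul_eq_mul, Finset.card_erase_of_mem (Finset.mem_univ k),
      Finset.card_univ, Fintype.card_fin]
    have h2 : ((n - 1 : ℕ) : ℝ) ≤ n := by exact_mod_cast Nat.sub_le n 1
    have h3 : ((n - 1 : ℕ) : ℝ) * (|u k (a k)| / C') ≤ n * (|u k (a k)| / (2 * n)) := by
      gcongr
    have h4 : (n : ℝ) * (|u k (a k)| / (2 * n)) = |u k (a k)| / 2 := by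
      field_simp
    have h5 : ‖U k k‖ = |u k (a k)| := rfl
    rw [h5]
    linarith
  refine ⟨U⁻¹.mulVec fun k => h (a k), fun k => ?_⟩
  have hU : IsUnit U.det := isUnit_iff_ne_zero.mpr hdet
  have h1 : U.mulVec (U⁻¹.mulVec fun k => h (a k)) = fun k => h (a k) := by
    rw [Matrix.mulVec_mulVec, Matrix.mul_nonsing_inv U hU, Matrix.one_mulVec]
  have h2 := congrFun h1 k
  rw [← h2]
  simp only [Matrix.mulVec, dotProduct, U, Matrix.of_apply]
  exact Finset.sum_congr rfl fun l _ => mul_comm _ _

/-- Pigeonhole: many points with bounded ratios contain many points with nearly equal ratios. -/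
theorem cluster {X : Type} (D : Finset X) (r : X → ℝ) (w : ℝ) (hw : 0 < w) (L Q : ℕ)
    (hr : ∀ x ∈ D, |r x| ≤ L * w) (hD : (2 * L + 1) * Q < D.card) :
    ∃ B ⊆ D, B.card = Q ∧ ∀ x ∈ B, ∀ y ∈ B, |r x - r y| ≤ w := by
  classical
  let z : X → ℤ := fun x => ⌊r x / w⌋
  have hz : ∀ x ∈ D, z x ∈ Finset.Icc (-(L : ℤ)) L := by
    intro x hx
    have h1 := hr x hx
    rw [abs_le] at h1
    rw [Finset.mem_Icc]
    constructor
    · apply Int.le_floor.mpr
      push_cast
      rw [le_div_iff₀ hw]
      linarith [h1.1]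
    · have : r x / w ≤ L := by rw [div_le_iff₀ hw]; exact h1.2
      have h2 := (Int.floor_le (r x / w)).trans this
      exact_mod_cast h2
  have hcard : (Finset.Icc (-(L : ℤ)) L).card * Q < D.card := by
    refine lt_of_le_of_lt ?_ hD
    apply Nat.mul_le_mul_right
    rw [Int.card_Icc]
    omega
  obtain ⟨y, _, hy⟩ := Finset.exists_lt_card_fiber_of_mul_lt_card_of_maps_to hz hcard
  obtain ⟨B, hB1, hB2⟩ := Finset.exists_subset_card_eq hy.le
  refine ⟨B, hB1.trans (Finset.filter_subset _ _), hB2, ?_⟩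
  intro x1 hx1 x2 hx2
  have h1 := (Finset.mem_filter.mp (hB1 hx1)).2
  have h2 := (Finset.mem_filter.mp (hB1 hx2)).2
  have h3 := Int.abs_sub_lt_one_of_floor_eq_floor (h1.trans h2.symm)
  rw [← sub_div, abs_div, abs_of_pos hw, div_lt_one hw] at h3
  exact h3.le

/-- The inductive step: one more function. -/
theorem step (hn : 1 ≤ n) (hC : 2 ≤ C) (B Q L : ℕ) (hQ : Q = M + B + 1)
    (hL : 8 * n * Q * C ^ 2 ≤ (L : ℝ)) (hC' : 16 * (n : ℝ) ^ 2 * Q * C ^ 2 ≤ C')
    (hM' : M + (2 * L + 1) * Q < M')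
    (hD : Dominated n C' M' S u A) (h : X → ℝ)
    (hh : ∀ c : Fin n → ℝ, ∀ T ⊆ S, (∀ x ∈ T, h x = ∑ l, c l * u l x) → T.card ≤ B) :
    ∃ (c : Fin n → ℝ) (s : ℝ) (A' : Fin (n + 1) → Finset X), Dominated (n + 1) C M S
      (Fin.snoc (α := fun _ => X → ℝ) u (fun x => s * (h x - ∑ l, c l * u l x))) A' := by
  classical
  have hn' : (1 : ℝ) ≤ n := by exact_mod_cast hn
  have hQ1 : 1 ≤ Q := by omega
  have hQ' : (1 : ℝ) ≤ Q := by exact_mod_cast hQ1
  have hn2 : (n : ℝ) ≤ (n : ℝ) ^ 2 := by nlinarith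
  have hCC : C ≤ C ^ 2 := by nlinarith
  have hC4 : 4 ≤ C ^ 2 := by nlinarith
  have hbig : (n : ℝ) * C ^ 2 ≤ (n : ℝ) ^ 2 * Q * C ^ 2 := by
    have : (n : ℝ) * 1 ≤ (n : ℝ) ^ 2 * Q := by gcongr
    nlinarith
  have hC'1 : 16 * (n : ℝ) * C ^ 2 ≤ C' := by nlinarith
  have hC'2 : 2 * (n : ℝ) ≤ C' := by nlinarith
  have hC'3 : C ≤ C' := by nlinarith
  have hC'0 : 0 < C' := by linarith
  have hcardQ : ∀ k, Q ≤ (A k).card := by
    intro k
    have := hD.card k
    have h2 : Q ≤ (2 * L + 1) * Q := Nat.le_mul_of_pos_left _ (by omega)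
    omega
  -- coefficients of the interpolating combination
  have hint := fun a : {a : Fin n → X // ∀ k, a k ∈ A k} => interp hD hn hC'2 h a.1 a.2
  choose co hco using hint
  let c : (Fin n → X) → Fin n → ℝ := fun a => if ha : ∀ k, a k ∈ A k then co ⟨a, ha⟩ else 0
  have hc : ∀ a, (∀ k, a k ∈ A k) → ∀ k, ∑ l, c a l * u l (a k) = h (a k) := by
    intro a ha k
    simp only [c, dif_pos ha]
    exact hco ⟨a, ha⟩ k
  let H : (Fin n → X) → X → ℝ := fun a x => h x - ∑ l, c a l * u l x
  let P : Finset ((Fin n → X) × (Fin n → Finset X)) :=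
    Fintype.piFinset A ×ˢ Fintype.piFinset (fun k => (A k).powersetCard Q)
  let f : (Fin n → X) × (Fin n → Finset X) → ℝ := fun q =>
    ∑ k, ∑ x ∈ q.2 k, |H q.1 x| / |u k x|
  have hPne : P.Nonempty := by
    have h1 : ∀ k, ∃ x, x ∈ A k := fun k => Finset.card_pos.mp (by have := hcardQ k; omega)
    choose a ha using h1
    have h2 : ∀ k, ∃ T, T ∈ (A k).powersetCard Q := by
      intro k
      obtain ⟨T, hT1, hT2⟩ := Finset.exists_subset_card_eq (hcardQ k)
      exact ⟨T, Finset.mem_powersetCard.mpr ⟨hT1, hT2⟩⟩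
    choose T hT using h2
    exact ⟨(a, T), Finset.mem_product.mpr ⟨Fintype.mem_piFinset.mpr ha,
      Fintype.mem_piFinset.mpr hT⟩⟩
  obtain ⟨⟨a, T⟩, hmem, hmin⟩ := P.exists_min_image f hPne
  rw [Finset.mem_product, Fintype.mem_piFinset, Fintype.mem_piFinset] at hmem
  obtain ⟨ha, hT⟩ := hmem
  dsimp only at ha hT
  have hT1 : ∀ k, T k ⊆ A k := fun k => (Finset.mem_powersetCard.mp (hT k)).1
  have hT2 : ∀ k, (T k).card = Q := fun k => (Finset.mem_powersetCard.mp (hT k)).2
  set t : ℝ := f (a, T) with ht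
  have hterm : ∀ k, ∀ x ∈ T k, |H a x| / |u k x| ≤ t := by
    intro k x hx
    have h1 : |H a x| / |u k x| ≤ ∑ y ∈ T k, |H a y| / |u k y| :=
      Finset.single_le_sum (f := fun y => |H a y| / |u k y|) (fun y _ => by positivity) hx
    have h2 : ∑ y ∈ T k, |H a y| / |u k y| ≤ ∑ k, ∑ y ∈ T k, |H a y| / |u k y| :=
      Finset.single_le_sum (f := fun k => ∑ y ∈ T k, |H a y| / |u k y|)
        (fun k _ => Finset.sum_nonneg fun y _ => by positivity) (Finset.mem_univ k)
    exact h1.trans h2
  have htight : ∀ k, ∀ x ∈ T k, |H a x| ≤ t * |u k x| := by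
    intro k x hx
    have h1 := hterm k x hx
    rwa [div_le_iff₀ (abs_pos.mpr (hD.ne k x (hT1 k hx)))] at h1
  have ht0 : 0 < t := by
    by_contra hneg
    push Not at hneg
    let k0 : Fin n := ⟨0, by omega⟩
    have h1 : ∀ x ∈ T k0, h x = ∑ l, c a l * u l x := by
      intro x hx
      have h2 := htight k0 x hx
      have h3 : |H a x| ≤ 0 := h2.trans (mul_nonpos_of_nonpos_of_nonneg hneg (abs_nonneg _))
      have h4 : H a x = 0 := abs_eq_zero.mp (le_antisymm h3 (abs_nonneg _))
      simp only [H] at h4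
      linarith
    have h5 := hh _ (T k0) ((hT1 k0).trans (hD.sub k0)) h1
    rw [hT2 k0] at h5
    omega
  -- a block with many large values
  have hgood : ∃ k0, M ≤ ((A k0).filter fun x => C ^ 2 * t * |u k0 x| ≤ |H a x|).card := by
    by_contra hbad
    push Not at hbad
    set w : ℝ := t / (8 * n * Q) with hw
    have hw0 : 0 < w := by positivity
    have hclus : ∀ k, ∃ B' ⊆ A k, B'.card = Q ∧ (∀ x ∈ B', |H a x / u k x| ≤ C ^ 2 * t) ∧
        ∀ x ∈ B', ∀ y ∈ B', |H a x / u k x - H a y / u k y| ≤ w := by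
      intro k
      have h1 := hbad k
      have h2 := Finset.card_filter_add_card_filter_not (s := A k)
        (fun x => C ^ 2 * t * |u k x| ≤ |H a x|)
      have h3 := hD.card k
      have h4 : ∀ x ∈ (A k).filter (fun x => ¬ C ^ 2 * t * |u k x| ≤ |H a x|),
          |H a x / u k x| ≤ C ^ 2 * t := by
        intro x hx
        rw [Finset.mem_filter] at hx
        rw [abs_div, div_le_iff₀ (abs_pos.mpr (hD.ne k x hx.1))]
        exact (not_le.mp hx.2).le
      obtain ⟨B', hB1, hB2, hB3⟩ := cluster ((A k).filter fun x => ¬ C ^ 2 * t * |u k x| ≤ |H a x|)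
        (fun x => H a x / u k x) w hw0 L Q (fun x hx => by
          refine (h4 x hx).trans ?_
          have h5 : C ^ 2 * t = (8 * n * Q * C ^ 2) * w := by
            rw [hw]; field_simp
          rw [h5]
          gcongr) (by omega)
      exact ⟨B', hB1.trans (Finset.filter_subset _ _), hB2, fun x hx => h4 x (hB1 hx), hB3⟩
    choose T' hT'1 hT'2 hT'3 hT'4 using hclus
    have hne : ∀ k, ∃ x, x ∈ T' k := fun k => Finset.card_pos.mp (by rw [hT'2 k]; omega)
    choose a' ha' using hne
    have ha'A : ∀ k, a' k ∈ A k := fun k => hT'1 k (ha' k)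
    -- difference of the coefficients
    let e : Fin n → ℝ := fun l => c a' l - c a l
    have hHH : ∀ x, H a' x = H a x - ∑ l, e l * u l x := by
      intro x
      simp only [H, e, sub_mul, Finset.sum_sub_distrib]
      ring
    have hzero : ∀ k, H a (a' k) = ∑ l, e l * u l (a' k) := by
      intro k
      have h1 : H a' (a' k) = 0 := by
        simp only [H]
        rw [hc a' ha'A k]
        ring
      rw [hHH] at h1
      linarith
    obtain ⟨km, _, hkm⟩ := Finset.exists_max_image (Finset.univ : Finset (Fin n))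
      (fun l => |e l|) ⟨⟨0, by omega⟩, Finset.mem_univ _⟩
    set Δ : ℝ := |e km| with hΔ
    have hΔ0 : 0 ≤ Δ := abs_nonneg _
    have hratio : ∀ k l, k ≠ l → ∀ x ∈ A k, |u l x / u k x| ≤ 1 / C' := by
      intro k l hkl x hx
      have h1 := hD.dom k l hkl x hx
      have h2 := abs_pos.mpr (hD.ne k x hx)
      rw [abs_div, div_le_div_iff₀ h2 hC'0]
      linarith
    have hsumr : ∀ k, ∀ x ∈ A k, (∑ l, e l * u l x) / u k x =
        e k + ∑ l ∈ Finset.univ.erase k, e l * (u l x / u k x) := by
      intro k x hx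
      have hne := hD.ne k x hx
      rw [← Finset.add_sum_erase Finset.univ _ (Finset.mem_univ k), add_div, Finset.sum_div]
      congr 1
      · field_simp
      · exact Finset.sum_congr rfl fun l _ => by rw [mul_div_assoc]
    have hcarderase : ∀ k : Fin n, ((Finset.univ.erase k).card : ℝ) ≤ n := by
      intro k
      have : (Finset.univ.erase k).card ≤ n := by
        refine (Finset.card_le_card (Finset.erase_subset _ _)).trans ?_
        simp
      exact_mod_cast this
    have hrest : ∀ k, ∀ x ∈ A k, |∑ l ∈ Finset.univ.erase k, e l * (u l x / u k x)| ≤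
        n * (Δ * (1 / C')) := by
      intro k x hx
      refine (Finset.abs_sum_le_sum_abs _ _).trans ?_
      refine (Finset.sum_le_card_nsmul _ _ (Δ * (1 / C')) ?_).trans ?_
      · intro l hl
        rw [abs_mul]
        have h1 := hkm l (Finset.mem_univ _)
        have h2 := hratio k l (Finset.ne_of_mem_erase hl).symm x hx
        gcongr
      · rw [nsmul_eq_mul]
        have := hcarderase k
        gcongr
    have hΔle : Δ ≤ 2 * (C ^ 2 * t) := by
      have h1 : H a (a' km) / u km (a' km) =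
          e km + ∑ l ∈ Finset.univ.erase km, e l * (u l (a' km) / u km (a' km)) := by
        rw [hzero km]; exact hsumr km _ (ha'A km)
      have h2 := hT'3 km _ (ha' km)
      have h3 := hrest km _ (ha'A km)
      have h4 : Δ ≤ C ^ 2 * t + n * (Δ * (1 / C')) := by
        have h5 : e km = H a (a' km) / u km (a' km) -
            ∑ l ∈ Finset.univ.erase km, e l * (u l (a' km) / u km (a' km)) := by
          rw [h1]; ring
        rw [hΔ, h5]
        refine (abs_sub _ _).trans ?_
        rw [← h5]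
        exact add_le_add h2 h3
      have h6 : n * (Δ * (1 / C')) ≤ Δ / 2 := by
        have : (n : ℝ) * (Δ * (1 / C')) = Δ * (n / C') := by ring
        rw [this]
        have h7 : (n : ℝ) / C' ≤ 1 / 2 := by
          rw [div_le_div_iff₀ hC'0 (by norm_num)]; linarith
        nlinarith
      linarith
    have hnew : ∀ k, ∀ x ∈ T' k, |H a' x| / |u k x| ≤ w + 4 * n * (C ^ 2 * t) / C' := by
      intro k x hx
      have hxA := hT'1 k hx
      rw [← abs_div]
      have h1 : H a' x / u k x = (H a x / u k x - H a (a' k) / u k (a' k)) -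
          ∑ l ∈ Finset.univ.erase k, e l * (u l x / u k x) +
          ∑ l ∈ Finset.univ.erase k, e l * (u l (a' k) / u k (a' k)) := by
        rw [hHH x, sub_div, hsumr k x hxA]
        have h2 : H a (a' k) / u k (a' k) =
          e k + ∑ l ∈ Finset.univ.erase k, e l * (u l (a' k) / u k (a' k)) := by
          rw [hzero k]; exact hsumr k _ (ha'A k)
        rw [h2]; ring
      rw [h1]
      have h3 := hT'4 k x hx (a' k) (ha' k)
      have h4 := hrest k x hxA
      have h5 := hrest k (a' k) (ha'A k)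
      refine (abs_add_le _ _).trans ?_
      have h6 := abs_sub (H a x / u k x - H a (a' k) / u k (a' k))
        (∑ l ∈ Finset.univ.erase k, e l * (u l x / u k x))
      have h7 : n * (Δ * (1 / C')) ≤ 2 * n * (C ^ 2 * t) / C' := by
        have : 2 * n * (C ^ 2 * t) / C' = n * ((2 * (C ^ 2 * t)) * (1 / C')) := by ring
        rw [this]; gcongr
      have h8 : 4 * n * (C ^ 2 * t) / C' = 2 * n * (C ^ 2 * t) / C' + 2 * n * (C ^ 2 * t) / C' := by
        ring
      rw [h8]
      linarith
    have hfnew : f (a', T') ≤ n * (Q * (w + 4 * n * (C ^ 2 * t) / C')) := by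
      have h1 : ∀ k ∈ (Finset.univ : Finset (Fin n)), ∑ x ∈ T' k, |H a' x| / |u k x| ≤
          Q * (w + 4 * n * (C ^ 2 * t) / C') := by
        intro k _
        refine (Finset.sum_le_card_nsmul _ _ _ (hnew k)).trans ?_
        rw [hT'2 k, nsmul_eq_mul]
      refine (Finset.sum_le_card_nsmul _ _ _ h1).trans ?_
      rw [nsmul_eq_mul, Finset.card_univ, Fintype.card_fin]
    have hmem' : (a', T') ∈ P := by
      refine Finset.mem_product.mpr ⟨Fintype.mem_piFinset.mpr ha'A,
        Fintype.mem_piFinset.mpr fun k => Finset.mem_powersetCard.mpr ⟨hT'1 k, hT'2 k⟩⟩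
    have hle := hmin _ hmem'
    have h9 : n * (Q * (w + 4 * n * (C ^ 2 * t) / C')) = t / 8 +
        4 * n ^ 2 * Q * C ^ 2 / C' * t := by
      rw [hw]; field_simp
    have h10 : 4 * n ^ 2 * Q * C ^ 2 / C' ≤ 1 / 4 := by
      rw [div_le_div_iff₀ hC'0 (by norm_num)]; linarith
    have h11 : t ≤ t / 8 + 1 / 4 * t := by
      refine (hle.trans hfnew).trans ?_
      rw [h9]
      gcongr
    linarith
  obtain ⟨k0, hk0⟩ := hgood
  refine ⟨c a, 1 / (C * t), Fin.snoc (α := fun _ => Finset X) T
    ((A k0).filter fun x => C ^ 2 * t * |u k0 x| ≤ |H a x|), ?_⟩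
  have hCt : 0 < C * t := by positivity
  have hlast : ∀ x, |1 / (C * t) * (h x - ∑ l, c a l * u l x)| = |H a x| / (C * t) := by
    intro x
    rw [abs_mul, abs_of_pos (by positivity : 0 < 1 / (C * t))]
    simp only [H]
    ring
  have hlarge : ∀ x ∈ (A k0).filter fun x => C ^ 2 * t * |u k0 x| ≤ |H a x|,
      C * |u k0 x| ≤ |H a x| / (C * t) := by
    intro x hx
    have h1 := (Finset.mem_filter.mp hx).2
    rw [le_div_iff₀ hCt]
    nlinarith
  refine ⟨?_, ?_, ?_, ?_, ?_⟩
  · intro k
    refine Fin.lastCases ?_ (fun k => ?_) k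
    · rw [Fin.snoc_last]; exact (Finset.filter_subset _ _).trans (hD.sub k0)
    · rw [Fin.snoc_castSucc]; exact (hT1 k).trans (hD.sub k)
  · intro k
    refine Fin.lastCases ?_ (fun k => ?_) k
    · rw [Fin.snoc_last]; exact hk0
    · rw [Fin.snoc_castSucc, hT2 k]; omega
  · have hdl : ∀ k, Disjoint (T k) ((A k0).filter fun x => C ^ 2 * t * |u k0 x| ≤ |H a x|) := by
      intro k
      by_cases hk : k = k0
      · subst hk
        rw [Finset.disjoint_left]
        intro x hx hx'
        have h1 := htight k x hx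
        have h2 := (Finset.mem_filter.mp hx').2
        have h3 := abs_pos.mpr (hD.ne k x (hT1 k hx))
        nlinarith [mul_pos ht0 h3]
      · exact (hD.disj k k0 hk).mono (hT1 k) (Finset.filter_subset _ _)
    intro k l
    refine Fin.lastCases ?_ (fun k => ?_) k <;> refine Fin.lastCases ?_ (fun l => ?_) l
    · intro hkl; exact absurd rfl hkl
    · intro _; rw [Fin.snoc_last, Fin.snoc_castSucc]; exact (hdl l).symm
    · intro _; rw [Fin.snoc_last, Fin.snoc_castSucc]; exact hdl k
    · intro hkl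
      rw [Fin.snoc_castSucc, Fin.snoc_castSucc]
      exact (hD.disj k l fun h => hkl (by rw [h])).mono (hT1 k) (hT1 l)
  · intro k
    refine Fin.lastCases ?_ (fun k => ?_) k
    · rw [Fin.snoc_last, Fin.snoc_last]
      intro x hx
      have h1 := hlarge x hx
      have h2 := abs_pos.mpr (hD.ne k0 x (Finset.mem_filter.mp hx).1)
      rw [← hlast] at h1
      exact abs_pos.mp (lt_of_lt_of_le (by positivity) h1)
    · rw [Fin.snoc_castSucc, Fin.snoc_castSucc]
      exact fun x hx => hD.ne k x (hT1 k hx)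
  · intro k l
    refine Fin.lastCases ?_ (fun k => ?_) k <;> refine Fin.lastCases ?_ (fun l => ?_) l
    · intro hkl; exact absurd rfl hkl
    · intro _ x hx
      rw [Fin.snoc_last] at hx
      rw [Fin.snoc_last, Fin.snoc_castSucc, hlast]
      have h1 := hlarge x hx
      refine le_trans ?_ h1
      by_cases hl : l = k0
      · rw [hl]
      · have h2 := hD.dom k0 l (Ne.symm hl) x (Finset.mem_filter.mp hx).1
        have h3 : |u l x| ≤ |u k0 x| := by
          refine le_trans ?_ h2
          nlinarith [abs_nonneg (u l x)]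
        gcongr
    · intro _ x hx
      rw [Fin.snoc_castSucc] at hx
      rw [Fin.snoc_last, Fin.snoc_castSucc, hlast]
      have h1 := htight k x hx
      have h2 : C * (|H a x| / (C * t)) = |H a x| / t := by field_simp
      rw [h2, div_le_iff₀ ht0]
      linarith
    · intro hkl x hx
      rw [Fin.snoc_castSucc] at hx
      rw [Fin.snoc_castSucc, Fin.snoc_castSucc]
      have h1 := hD.dom k l (fun h => hkl (by rw [h])) x (hT1 k hx)
      refine le_trans ?_ h1
      gcongr

end Pool.Agent.Helper27.Nerve
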