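import Mathlib

/-!
A weak form of the theorem of Tverberg, from the theorems of Helly and Caratheodory.
-/

set_option autoImplicit false

open Finset Module

namespace Pool.Agent.Helper27.Nerve

variable {E : Type} [AddCommGroup E] [Module ℝ E] [FiniteDimensional ℝ E] [DecidableEq E]

/-- Centrepoint theorem. -/
theorem centrepoint (A : Finset E) (k : ℕ) (hk : (finrank ℝ E + 1) * k < A.card) :
    ∃ p : E, ∀ B ⊆ A, A.card - k ≤ B.card → p ∈ convexHull ℝ (B : Set E) := by
  classical
  have h := Convex.helly_theorem' (𝕜 := ℝ) (F := fun B : Finset E => convexHull ℝ (B : Set E))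
    (s := A.powerset.filter fun B => A.card - k ≤ B.card) (fun B _ => convex_convexHull ℝ _) ?_
  · obtain ⟨p, hp⟩ := h
    refine ⟨p, fun B hB hB' => ?_⟩
    simp only [Set.mem_iInter] at hp
    exact hp B (Finset.mem_filter.mpr ⟨Finset.mem_powerset.mpr hB, hB'⟩)
  · intro I hI hcard
    have hI' : ∀ B ∈ I, B ⊆ A ∧ A.card - k ≤ B.card := by
      intro B hB
      have := hI hB
      simpa using this
    have h1 : (I.biUnion fun B => A \ B).card ≤ I.card * k := by
      refine Finset.card_biUnion_le_card_mul _ _ _ ?_
      intro B hB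
      rw [Finset.card_sdiff_of_subset (hI' B hB).1]
      have := (hI' B hB).2
      omega
    have h2 : (I.biUnion fun B => A \ B).card < A.card := by
      refine lt_of_le_of_lt (h1.trans ?_) hk
      exact Nat.mul_le_mul_right _ hcard
    obtain ⟨x, hxA, hx⟩ := Finset.exists_mem_notMem_of_card_lt_card h2
    refine ⟨x, ?_⟩
    simp only [Set.mem_iInter]
    intro B hB
    apply subset_convexHull
    by_contra hxB
    apply hx
    simp only [Finset.mem_biUnion, Finset.mem_sdiff]
    exact ⟨B, hB, hxA, by simpa using hxB⟩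

omit [DecidableEq E] in
/-- Caratheodory for finite sets of points. -/
theorem caratheodory (R : Finset E) {p : E} (hp : p ∈ convexHull ℝ (R : Set E)) :
    ∃ t ⊆ R, t.card ≤ finrank ℝ E + 1 ∧ p ∈ convexHull ℝ (t : Set E) := by
  rw [convexHull_eq_union] at hp
  simp only [Set.mem_iUnion, exists_prop] at hp
  obtain ⟨t, ht1, ht2, ht3⟩ := hp
  refine ⟨t, by exact_mod_cast ht1, ?_, ht3⟩
  have h := ht2.card_le_finrank_succ
  rw [Fintype.card_coe] at h
  refine h.trans ?_
  gcongr
  exact Submodule.finrank_le _

/-- Weak Tverberg theorem: many points can be partitioned with a common point of the hulls. -/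
theorem tverberg_weak {V : Type} [DecidableEq V] (A : Finset E) (F : Finset V) (m : ℕ)
    (hF : F.card ≤ m) (hA : (finrank ℝ E + 1) * (m * (finrank ℝ E + 1)) < A.card) :
    ∃ (p : E) (Q : V → Finset E), (∀ i, Q i ⊆ A) ∧ (∀ i ∈ F, p ∈ convexHull ℝ (Q i : Set E)) ∧
      ∀ i ∈ F, ∀ j ∈ F, i ≠ j → Disjoint (Q i) (Q j) := by
  classical
  obtain ⟨p, hp⟩ := centrepoint A (m * (finrank ℝ E + 1)) hA
  refine ⟨p, ?_⟩
  have key : ∀ G : Finset V, G ⊆ F → ∃ Q : V → Finset E, (∀ i, Q i ⊆ A) ∧
      (∀ i ∈ G, p ∈ convexHull ℝ (Q i : Set E)) ∧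
      (∀ i ∈ G, ∀ j ∈ G, i ≠ j → Disjoint (Q i) (Q j)) ∧
      (∀ i ∈ G, (Q i).card ≤ finrank ℝ E + 1) := by
    intro G
    induction G using Finset.induction_on with
    | empty =>
      intro _
      exact ⟨fun _ => ∅, by simp, by simp, by simp, by simp⟩
    | insert a G ha ih =>
      intro hG
      obtain ⟨Q, hQ1, hQ2, hQ3, hQ4⟩ := ih ((Finset.subset_insert _ _).trans hG)
      have hGcard : G.card ≤ m := by
        refine (Finset.card_le_card ((Finset.subset_insert a G).trans hG)).trans hF
      have hU : (G.biUnion Q).card ≤ m * (finrank ℝ E + 1) :=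
        (Finset.card_biUnion_le_card_mul _ _ _ hQ4).trans (Nat.mul_le_mul_right _ hGcard)
      have hR : A.card - m * (finrank ℝ E + 1) ≤ (A \ G.biUnion Q).card := by
        have := Finset.le_card_sdiff (G.biUnion Q) A
        omega
      obtain ⟨t, ht1, ht2, ht3⟩ := caratheodory _ (hp _ Finset.sdiff_subset hR)
      have htA : t ⊆ A := ht1.trans Finset.sdiff_subset
      have htd : ∀ j ∈ G, Disjoint t (Q j) := by
        intro j hj
        rw [Finset.disjoint_left]
        intro x hx hxj
        have := ht1 hx
        simp only [Finset.mem_sdiff, Finset.mem_biUnion, not_exists, not_and] at this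
        exact this.2 j hj hxj
      refine ⟨fun i => if i = a then t else Q i, ?_, ?_, ?_, ?_⟩
      · intro i
        dsimp only
        split_ifs
        · exact htA
        · exact hQ1 i
      · intro i hi
        dsimp only
        split_ifs with h
        · exact ht3
        · exact hQ2 i (by simpa [h] using hi)
      · intro i hi j hj hij
        dsimp only
        split_ifs with h1 h2 h2
        · exact absurd (h1.trans h2.symm) hij
        · exact htd j (by simpa [h2] using hj)
        · exact (htd i (by simpa [h1] using hi)).symm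
        · exact hQ3 i (by simpa [h1] using hi) j (by simpa [h2] using hj) hij
      · intro i hi
        dsimp only
        split_ifs with h
        · exact ht2
        · exact hQ4 i (by simpa [h] using hi)
  obtain ⟨Q, h1, h2, h3, _⟩ := key F subset_rfl
  exact ⟨Q, h1, h2, h3⟩

end Pool.Agent.Helper27.Nerve
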