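import Pool.Agent.Helper27.Nerve.Statement
import Pool.Agent.Helper27.Nerve.Chain
import Pool.Agent.Helper27.Nerve.Weak

/-!
Every finite simplicial complex is a Tverberg complex in all large dimensions.
-/

set_option autoImplicit false

open Finset Filter Topology

namespace Pool.Agent.Helper27.Nerve

variable {d : ℕ}

/-- Affine functions. -/
def IsAff (φ : Pt d → ℝ) : Prop := ∃ (w : Pt d →ₗ[ℝ] ℝ) (b : ℝ), ∀ x, φ x = w x + b

theorem IsAff.const (b : ℝ) : IsAff (fun _ : Pt d => b) := ⟨0, b, fun x => by simp⟩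

theorem IsAff.add {φ ψ : Pt d → ℝ} (h1 : IsAff φ) (h2 : IsAff ψ) :
    IsAff (fun x => φ x + ψ x) := by
  obtain ⟨w, b, h⟩ := h1
  obtain ⟨w', b', h'⟩ := h2
  exact ⟨w + w', b + b', fun x => by simp only [h, h', LinearMap.add_apply]; ring⟩

theorem IsAff.const_mul {φ : Pt d → ℝ} (h1 : IsAff φ) (c : ℝ) : IsAff (fun x => c * φ x) := by
  obtain ⟨w, b, h⟩ := h1
  exact ⟨c • w, c * b, fun x => by simp only [h, LinearMap.smul_apply, smul_eq_mul]; ring⟩

theorem IsAff.sum {ι : Type} (s : Finset ι) {φ : ι → Pt d → ℝ} (h : ∀ i ∈ s, IsAff (φ i)) :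
    IsAff (fun x => ∑ i ∈ s, φ i x) := by
  classical
  induction s using Finset.induction_on with
  | empty => simpa using IsAff.const (d := d) 0
  | insert a s ha ih =>
    have h1 := (h a (Finset.mem_insert_self a s)).add (ih fun i hi => h i (Finset.mem_insert_of_mem hi))
    refine (congrArg IsAff ?_).mp h1
    funext x
    rw [Finset.sum_insert ha]

theorem IsAff.pos_hull {φ : Pt d → ℝ} (h : IsAff φ) {T : Set (Pt d)} (hT : ∀ x ∈ T, 0 < φ x) :
    ∀ x ∈ convexHull ℝ T, 0 < φ x := by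
  obtain ⟨w, b, hw⟩ := h
  have hconv : Convex ℝ {x : Pt d | -b < w x} := convex_halfSpace_gt w.isLinear (-b)
  intro x hx
  have h1 : x ∈ {x : Pt d | -b < w x} := by
    refine convexHull_min ?_ hconv hx
    intro y hy
    have := hT y hy
    rw [hw] at this
    show -b < w y
    linarith
  have h2 : -b < w x := h1
  rw [hw]
  linarith

/-- The functions `1, x_0, x_1, ...`. -/
noncomputable def hfun (d k : ℕ) (x : Pt d) : ℝ :=
  if k = 0 then 1 else if h : k - 1 < d then x ⟨k - 1, h⟩ else 0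

theorem hfun_aff (k : ℕ) : IsAff (hfun d k) := by
  by_cases h0 : k = 0
  · have : hfun d k = fun _ => 1 := by funext x; simp [hfun, h0]
    rw [this]; exact IsAff.const 1
  · by_cases h1 : k - 1 < d
    · refine ⟨⟨⟨fun x => x ⟨k - 1, h1⟩, fun x y => rfl⟩, fun c x => rfl⟩, 0, fun x => ?_⟩
      have h2 : hfun d k x = x ⟨k - 1, h1⟩ := by simp [hfun, h0, h1]
      rw [h2, add_zero]
      rfl
    · have : hfun d k = fun _ => 0 := by funext x; simp [hfun, h0, h1]
      rw [this]; exact IsAff.const 0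

theorem haar {S : Finset (Pt d)} (hS : GeneralPosition S) (k : ℕ) (hk : k < d + 1) (c : ℕ → ℝ)
    (T : Finset (Pt d)) (hTS : T ⊆ S)
    (hT : ∀ x ∈ T, hfun d k x = ∑ l ∈ range k, c l * hfun d l x) : T.card ≤ d := by
  by_contra hcon
  push Not at hcon
  obtain ⟨T', hT'1, hT'2⟩ := Finset.exists_subset_card_eq (Nat.succ_le_of_lt hcon)
  rcases Nat.eq_zero_or_pos k with h0 | h0
  · subst h0
    obtain ⟨x, hx⟩ : T'.Nonempty := Finset.card_pos.mp (by omega)
    have := hT x (hT'1 hx)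
    simp [hfun] at this
  · obtain ⟨j, rfl⟩ : ∃ j, k = j + 1 := ⟨k - 1, by omega⟩
    have hj : j < d := by omega
    refine hS T' (hT'1.trans hTS) hT'2 ⟨WithLp.toLp 2 fun i : Fin d =>
      (if i.val = j then 1 else 0) - (if i.val < j then c (i.val + 1) else 0), c 0, ?_, ?_⟩
    · intro hw
      have := congrArg (fun v : Pt d => v ⟨j, hj⟩) hw
      simp at this
    · intro x hx
      have h1 := hT x (hT'1 hx)
      rw [Finset.sum_range_succ'] at h1
      have h2 : hfun d (j + 1) x = x ⟨j, hj⟩ := by simp [hfun, hj]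
      have h3 : hfun d 0 x = 1 := by simp [hfun]
      rw [h2, h3, mul_one] at h1
      have h4 : inner ℝ (WithLp.toLp 2 fun i : Fin d =>
          (if i.val = j then (1 : ℝ) else 0) - (if i.val < j then c (i.val + 1) else 0)) x =
          ∑ i : Fin d, ((if i.val = j then x i else 0) -
            (if i.val < j then c (i.val + 1) * x i else 0)) := by
        rw [PiLp.inner_apply]
        refine Finset.sum_congr rfl fun i _ => ?_
        simp only [RCLike.inner_apply, conj_trivial]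
        split_ifs <;> ring
      rw [h4, Finset.sum_sub_distrib]
      have h5 : ∑ i : Fin d, (if i.val = j then x i else 0) = x ⟨j, hj⟩ := by
        rw [Finset.sum_eq_single ⟨j, hj⟩]
        · simp
        · intro b _ hb
          rw [if_neg]
          intro h
          exact hb (Fin.ext h)
        · intro h; exact absurd (Finset.mem_univ _) h
      have h6 : ∑ i : Fin d, (if i.val < j then c (i.val + 1) * x i else 0) =
          ∑ l ∈ range j, c (l + 1) * hfun d (l + 1) x := by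
        have h7 : ∀ i : Fin d, (if i.val < j then c (i.val + 1) * x i else 0) =
            (fun l => if l < j then c (l + 1) * hfun d (l + 1) x else 0) i.val := by
          intro i
          simp [hfun]
        rw [Finset.sum_congr rfl fun i _ => h7 i, Fin.sum_univ_eq_sum_range
          (fun l => if l < j then c (l + 1) * hfun d (l + 1) x else 0) d]
        symm
        rw [← Finset.sum_subset (Finset.range_subset_range.mpr hj.le)]
        · refine Finset.sum_congr rfl fun l hl => ?_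
          rw [if_pos (Finset.mem_range.mp hl)]
        · intro l _ hl
          rw [if_neg (by simpa using hl)]
      rw [h5, h6, h1]
      ring

theorem exists_facet {V : Type} [Fintype V] (K : SComplex V) {I : Finset V} (hI : I ∈ K.faces) :
    ∃ F ∈ K.facets, I ⊆ F := by
  classical
  obtain ⟨F, hF, hmax⟩ := (Finset.univ.filter fun G => G ∈ K.faces ∧ I ⊆ G).exists_max_image
    Finset.card ⟨I, by simp [hI]⟩
  rw [Finset.mem_filter] at hF
  refine ⟨F, ⟨hF.2.1, fun G hG hFG => ?_⟩, hF.2.2⟩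
  have h1 := hmax G (by simp [hG, hF.2.2.trans hFG])
  exact (Finset.eq_of_subset_of_card_le hFG h1).symm

theorem sum_D {V : Type} (N : Finset V) (y : V → ℝ) :
    ∑ i ∈ N, ((N.card : ℝ) * y i - ∑ j ∈ N, y j) = 0 := by
  rw [Finset.sum_sub_distrib, ← Finset.mul_sum, Finset.sum_const, nsmul_eq_mul, sub_self]

/-- The index `i` is admissible for the values `y`. -/
def Adm {V : Type} (K : SComplex V) (y : V → ℝ) (i : V) : Prop :=
  ∀ I : Finset V, I ∉ K.faces → i ∈ I → 0 < (I.card : ℝ) * y i - ∑ j ∈ I, y j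

theorem adm_of_max {V : Type} (K : SComplex V) (y : V → ℝ) (i : V)
    (hmax : ∀ j, j ≠ i → y j < y i) : Adm K y i := by
  classical
  intro I hI hiI
  have h0 : ∃ j ∈ I, j ≠ i := by
    by_contra hcon
    push Not at hcon
    have : I ⊆ {i} := fun j hj => by simp [hcon j hj]
    exact hI (K.down (K.vertex i) this)
  have h1 : (I.card : ℝ) * y i = ∑ j ∈ I, y i := by rw [Finset.sum_const, nsmul_eq_mul]
  rw [h1, ← Finset.sum_sub_distrib]
  obtain ⟨j, hj, hji⟩ := h0
  refine Finset.sum_pos' (fun l hl => ?_) ⟨j, hj, by linarith [hmax j hji]⟩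
  by_cases h : l = i
  · rw [h, sub_self]
  · linarith [hmax l h]

theorem block_real {V : Type} [DecidableEq V] (I : Finset V) (y : V → ℝ) (i n : V)
    (hn : n ∈ I) (g γ : ℝ) (hγ : 0 ≤ γ) (m : ℕ) (hIm : I.card ≤ m)
    (hall : ∀ j, y j ≤ γ) (h_i : -γ ≤ y i) (hnn : y n ≤ γ - g)
    (hlt : (2 * (m : ℝ) + 1) * γ < g) : 0 < (I.card : ℝ) * y i - ∑ j ∈ I, y j := by
  have h1 : ∑ j ∈ I.erase n, y j ≤ (m : ℝ) * γ := by
    refine (Finset.sum_le_card_nsmul _ _ γ fun j _ => hall j).trans ?_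
    rw [nsmul_eq_mul]
    have h2 : ((I.erase n).card : ℝ) ≤ m := by
      exact_mod_cast (Finset.card_le_card (Finset.erase_subset _ _)).trans hIm
    exact mul_le_mul_of_nonneg_right h2 hγ
  have h3 : y n + ∑ j ∈ I.erase n, y j = ∑ j ∈ I, y j := Finset.add_sum_erase _ _ hn
  have h5 : (I.card : ℝ) ≤ m := by exact_mod_cast hIm
  have h6 : (I.card : ℝ) * (-γ) ≤ (I.card : ℝ) * y i :=
    mul_le_mul_of_nonneg_left h_i (by positivity)
  have h7 : (I.card : ℝ) * γ ≤ (m : ℝ) * γ := mul_le_mul_of_nonneg_right h5 hγ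
  have h8 : (2 * (m : ℝ) + 1) * γ = (m : ℝ) * γ + (m : ℝ) * γ + γ := by ring
  have h9 : (I.card : ℝ) * (-γ) = -((I.card : ℝ) * γ) := by ring
  rw [h8] at hlt
  rw [h9] at h6
  rw [← h3]
  linarith

/-- On the block of a facet `F` all the vertices of `F` are admissible. -/
theorem adm_block {V : Type} [Fintype V] [DecidableEq V] (K : SComplex V)
    (Fs : Finset (Finset V)) (hFs : ∀ F, F ∈ Fs ↔ F ∈ K.facets) (C : ℝ)
    (hC : (2 * (Fintype.card V : ℝ) + 1) * Fs.card < C) (G : Finset V → ℝ) (F : Finset V)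
    (hF : F ∈ Fs) (hG : 0 < G F) (hdom : ∀ F' ∈ Fs, F ≠ F' → C * |G F'| ≤ G F) (i : V)
    (hi : i ∈ F) : Adm K (fun j => -∑ F' ∈ Fs.filter (fun F' => j ∉ F'), G F') i := by
  have hC0 : 0 < C := lt_of_le_of_lt (by positivity) hC
  have hsmall : ∀ W : Finset (Finset V), W ⊆ Fs → F ∉ W →
      |∑ F' ∈ W, G F'| ≤ Fs.card * (G F / C) := by
    intro W hW hFW
    refine (Finset.abs_sum_le_sum_abs _ _).trans ?_
    refine (Finset.sum_le_card_nsmul _ _ (G F / C) ?_).trans ?_
    · intro F' hF'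
      rw [le_div_iff₀ hC0, mul_comm]
      refine hdom F' (hW hF') ?_
      rintro rfl
      exact hFW hF'
    · rw [nsmul_eq_mul]
      have h1 : (W.card : ℝ) ≤ Fs.card := by exact_mod_cast Finset.card_le_card hW
      have h2 : 0 ≤ G F / C := div_nonneg hG.le hC0.le
      exact mul_le_mul_of_nonneg_right h1 h2
  have hin : ∀ j, j ∈ F → |∑ F' ∈ Fs.filter (fun F' => j ∉ F'), G F'| ≤
      Fs.card * (G F / C) := by
    intro j hj
    exact hsmall _ (Finset.filter_subset _ _) (by simp [hj])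
  have hout : ∀ j, j ∉ F → -∑ F' ∈ Fs.filter (fun F' => j ∉ F'), G F' ≤
      Fs.card * (G F / C) - G F := by
    intro j hj
    have hmem : F ∈ Fs.filter (fun F' => j ∉ F') := by simp [hF, hj]
    rw [← Finset.add_sum_erase _ _ hmem]
    have h1 := hsmall ((Fs.filter (fun F' => j ∉ F')).erase F)
      ((Finset.erase_subset _ _).trans (Finset.filter_subset _ _)) (Finset.notMem_erase _ _)
    have h2 := (abs_le.mp h1).1
    linarith
  have hγ0 : 0 ≤ (Fs.card : ℝ) * (G F / C) := by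
    have := div_nonneg hG.le hC0.le
    positivity
  intro I hI hiI
  obtain ⟨n, hnI, hnF⟩ : ∃ n ∈ I, n ∉ F := by
    by_contra hcon
    push Not at hcon
    exact hI (K.down ((hFs F).mp hF).1 hcon)
  refine block_real I (fun j => -∑ F' ∈ Fs.filter (fun F' => j ∉ F'), G F') i n hnI (G F)
    ((Fs.card : ℝ) * (G F / C)) hγ0 (Fintype.card V) (Finset.card_le_univ I) ?_ ?_
    (hout n hnF) ?_
  · intro j
    by_cases hj : j ∈ F
    · have h1 := (abs_le.mp (hin j hj)).1
      linarith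
    · have h1 := hout j hj
      linarith
  · have h1 := (abs_le.mp (hin i hi)).2
    linarith
  · have h1 : (2 * (Fintype.card V : ℝ) + 1) * ((Fs.card : ℝ) * (G F / C)) =
        ((2 * (Fintype.card V : ℝ) + 1) * Fs.card) * G F / C := by ring
    rw [h1, div_lt_iff₀ hC0, mul_comm (G F) C]
    exact mul_lt_mul_of_pos_right hC hG

/-- Large blocks in a large set in general position, and potentials for which the vertices of the
facet of each block are admissible on the block. -/
theorem exists_blocks {V : Type} [Fintype V] [Nonempty V] (K : SComplex V) (d : ℕ)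
    (Fs : Finset (Finset V)) (hFs : ∀ F, F ∈ Fs ↔ F ∈ K.facets) (hcardFs : Fs.card ≤ d + 1)
    (M : ℕ) : ∃ N : ℕ, ∀ S : Finset (Pt d), GeneralPosition S → N < S.card →
      ∃ (A : Finset V → Finset (Pt d)) (f : V → Pt d → ℝ),
        (∀ F ∈ Fs, A F ⊆ S) ∧ (∀ F ∈ Fs, ∀ F' ∈ Fs, F ≠ F' → Disjoint (A F) (A F')) ∧
        (∀ F ∈ Fs, M ≤ (A F).card) ∧ (∀ i, IsAff (f i)) ∧
        (∀ F ∈ Fs, ∀ x ∈ A F, ∀ i ∈ F, Adm K (fun j => f j x) i) := by
  classical
  have he : ∃ e : Finset V → Fin (d + 1), ∀ F ∈ Fs, ∀ F' ∈ Fs, F ≠ F' → e F ≠ e F' := by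
    refine ⟨fun F => if h : F ∈ Fs then Fin.castLE hcardFs (Fs.equivFin ⟨F, h⟩) else 0, ?_⟩
    intro F hF F' hF' hne h
    simp only [dif_pos hF, dif_pos hF'] at h
    have h1 := Fs.equivFin.injective (Fin.castLE_injective hcardFs h)
    exact hne (congrArg Subtype.val h1)
  obtain ⟨e, he⟩ := he
  obtain ⟨C, hC2, hC⟩ : ∃ C : ℝ, 2 ≤ C ∧ (2 * (Fintype.card V : ℝ) + 1) * Fs.card < C := by
    refine ⟨(2 * (Fintype.card V : ℝ) + 1) * Fs.card + 2, ?_, by linarith⟩
    have : (0 : ℝ) ≤ (2 * (Fintype.card V : ℝ) + 1) * Fs.card := by positivity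
    linarith
  obtain ⟨N, hN⟩ := exists_dominated d (d + 1) (by omega) C (2 * M) hC2
  refine ⟨N, fun S hS hcard => ?_⟩
  obtain ⟨g0, A0, hg0, hD0⟩ := hN S (hfun d) (haar hS) hcard.le
  obtain ⟨s, A, hD, hpos⟩ := hD0.signs
  have hg0aff : ∀ k, IsAff (g0 k) := by
    intro k
    obtain ⟨c, hc⟩ := hg0 k
    have h1 : IsAff (fun x => ∑ l ∈ range (d + 1), c l * hfun d l x) :=
      IsAff.sum _ fun l _ => (hfun_aff l).const_mul (c l)
    have h2 : g0 k = fun x => ∑ l ∈ range (d + 1), c l * hfun d l x := funext hc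
    rw [h2]
    exact h1
  refine ⟨fun F => A (e F),
    fun i x => -∑ F ∈ Fs.filter (fun F => i ∉ F), s (e F) * g0 (e F) x,
    fun F _ => hD.sub _, fun F hF F' hF' hne => hD.disj _ _ (he F hF F' hF' hne),
    fun F _ => hD.card _, ?_, ?_⟩
  · intro i
    have h1 : IsAff (fun x => ∑ F ∈ Fs.filter (fun F => i ∉ F), s (e F) * g0 (e F) x) :=
      IsAff.sum _ fun F _ => (hg0aff (e F)).const_mul _
    have h2 := h1.const_mul (-1)
    refine (congrArg IsAff ?_).mp h2
    funext x
    ring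
  · intro F hF x hx i hi
    refine adm_block K Fs hFs C hC (fun F => s (e F) * g0 (e F) x) F hF (hpos (e F) x hx) ?_ i hi
    intro F' hF' hne
    have h1 := hD.dom (e F) (e F') (he F hF F' hF' hne) x hx
    rw [abs_of_pos (hpos (e F) x hx)] at h1
    exact h1

theorem ev_pos (a c : ℝ) (ha : 0 < a) : ∀ᶠ ε in 𝓝[>] (0 : ℝ), 0 < a + ε * c := by
  have h : Tendsto (fun ε : ℝ => a + ε * c) (𝓝 0) (𝓝 (a + 0 * c)) :=
    Continuous.tendsto (by fun_prop) 0
  have h2 : a + 0 * c = a := by ring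
  rw [h2] at h
  exact (h.mono_left nhdsWithin_le_nhds).eventually (lt_mem_nhds ha)

theorem ev_ne (a c : ℝ) (hc : c ≠ 0) : ∀ᶠ ε in 𝓝[>] (0 : ℝ), a + ε * c ≠ 0 := by
  by_cases ha : a = 0
  · filter_upwards [self_mem_nhdsWithin] with ε hε
    rw [ha, zero_add]
    exact mul_ne_zero (ne_of_gt hε) hc
  · have h : Tendsto (fun ε : ℝ => a + ε * c) (𝓝 0) (𝓝 (a + 0 * c)) :=
      Continuous.tendsto (by fun_prop) 0
    have h2 : a + 0 * c = a := by ring
    rw [h2] at h
    exact (h.mono_left nhdsWithin_le_nhds).eventually_ne ha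

/-- Small perturbation without ties. -/
theorem perturb {V : Type} [Fintype V] (K : SComplex V) (S : Finset (Pt d))
    (f : V → Pt d → ℝ) (hf : ∀ i, IsAff (f i)) :
    ∃ f' : V → Pt d → ℝ, (∀ i, IsAff (f' i)) ∧
      (∀ x ∈ S, ∀ i, Adm K (fun j => f j x) i → Adm K (fun j => f' j x) i) ∧
      (∀ x ∈ S, ∀ i j, i ≠ j → f' i x ≠ f' j x) := by
  classical
  obtain ⟨ι, hι⟩ : ∃ ι : V → ℝ, ∀ i j, i ≠ j → ι i - ι j ≠ 0 := by
    refine ⟨fun v => ((Fintype.equivFin V v).val : ℝ), fun i j hij h => hij ?_⟩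
    have h1 : ((Fintype.equivFin V i).val : ℝ) = (Fintype.equivFin V j).val := by linarith
    have h2 : (Fintype.equivFin V i).val = (Fintype.equivFin V j).val := by exact_mod_cast h1
    exact (Fintype.equivFin V).injective (Fin.ext h2)
  have h1 : ∀ᶠ ε in 𝓝[>] (0 : ℝ), ∀ x ∈ S, ∀ i : V, ∀ I : Finset V,
      Adm K (fun j => f j x) i → I ∉ K.faces → i ∈ I →
      0 < ((I.card : ℝ) * f i x - ∑ j ∈ I, f j x) +
        ε * ((I.card : ℝ) * ι i - ∑ j ∈ I, ι j) := by
    refine (Finset.eventually_all S).mpr fun x hx => eventually_all.mpr fun i =>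
      eventually_all.mpr fun I => ?_
    by_cases h : Adm K (fun j => f j x) i ∧ I ∉ K.faces ∧ i ∈ I
    · filter_upwards [ev_pos _ ((I.card : ℝ) * ι i - ∑ j ∈ I, ι j) (h.1 I h.2.1 h.2.2)]
        with ε hε _ _ _
      exact hε
    · exact Eventually.of_forall fun ε a b c => absurd ⟨a, b, c⟩ h
  have h2 : ∀ᶠ ε in 𝓝[>] (0 : ℝ), ∀ x ∈ S, ∀ i j : V, i ≠ j →
      (f i x - f j x) + ε * (ι i - ι j) ≠ 0 := by
    refine (Finset.eventually_all S).mpr fun x hx => eventually_all.mpr fun i =>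
      eventually_all.mpr fun j => ?_
    by_cases h : i = j
    · exact Eventually.of_forall fun ε a => absurd h a
    · filter_upwards [ev_ne (f i x - f j x) _ (hι i j h)] with ε hε _
      exact hε
  obtain ⟨ε, hε1, hε2⟩ := (h1.and h2).exists
  refine ⟨fun i x => f i x + ε * ι i, fun i => ?_, fun x hx i hadm => ?_, fun x hx i j hij h => ?_⟩
  · exact (hf i).add (IsAff.const (ε * ι i))
  · intro I hI hiI
    have h3 := hε1 x hx i I hadm hI hiI
    rw [Finset.sum_add_distrib, ← Finset.mul_sum]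
    have h4 : (I.card : ℝ) * (f i x + ε * ι i) - (∑ j ∈ I, f j x + ε * ∑ j ∈ I, ι j) =
      ((I.card : ℝ) * f i x - ∑ j ∈ I, f j x) +
        ε * ((I.card : ℝ) * ι i - ∑ j ∈ I, ι j) := by ring
    rw [h4]
    exact h3
  · refine hε2 x hx i j hij ?_
    have h3 : f i x + ε * ι i = f j x + ε * ι j := h
    linarith

/-- The assembly of the partition. -/
theorem assemble {V : Type} [Fintype V] [Nonempty V] (K : SComplex V) (S : Finset (Pt d))
    (Fs : Finset (Finset V)) (hFs : ∀ F, F ∈ Fs ↔ F ∈ K.facets)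
    (A : Finset V → Finset (Pt d)) (hA : ∀ F ∈ Fs, A F ⊆ S)
    (hAd : ∀ F ∈ Fs, ∀ F' ∈ Fs, F ≠ F' → Disjoint (A F) (A F'))
    (hAc : ∀ F ∈ Fs, (d + 1) * (Fintype.card V * (d + 1)) < (A F).card)
    (f : V → Pt d → ℝ) (hf : ∀ i, IsAff (f i))
    (hadm : ∀ F ∈ Fs, ∀ x ∈ A F, ∀ i ∈ F, Adm K (fun j => f j x) i)
    (hne : ∀ x ∈ S, ∀ i j, i ≠ j → f i x ≠ f j x) : PartitionInduced K S := by
  classical
  have hemp : (∅ : Finset V) ∈ K.faces :=
    K.down (K.vertex (Classical.arbitrary V)) (Finset.empty_subset _)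
  have hT : ∀ F : Finset V, ∃ (p : Pt d) (Q : V → Finset (Pt d)), F ∈ Fs →
      (∀ i, Q i ⊆ A F) ∧ (∀ i ∈ F, p ∈ convexHull ℝ (Q i : Set (Pt d))) ∧
      ∀ i ∈ F, ∀ j ∈ F, i ≠ j → Disjoint (Q i) (Q j) := by
    intro F
    by_cases hF : F ∈ Fs
    · obtain ⟨p, Q, h⟩ := tverberg_weak (A F) F (Fintype.card V) (Finset.card_le_univ F) (by
        rw [finrank_euclideanSpace_fin]; exact hAc F hF)
      exact ⟨p, Q, fun _ => h⟩
    · exact ⟨0, fun _ => ∅, fun h => absurd h hF⟩
  choose p Q hT using hT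
  have huniq : ∀ x i j, (∃ F ∈ Fs, i ∈ F ∧ x ∈ Q F i) → (∃ F ∈ Fs, j ∈ F ∧ x ∈ Q F j) →
      i = j := by
    rintro x i j ⟨F, hF, hiF, hxF⟩ ⟨F', hF', hjF', hxF'⟩
    have h1 := (hT F hF).1 i hxF
    have h2 := (hT F' hF').1 j hxF'
    have h3 : F = F' := by
      by_contra hne'
      exact Finset.disjoint_left.mp (hAd F hF F' hF' hne') h1 h2
    subst h3
    by_contra hne'
    exact Finset.disjoint_left.mp ((hT F hF).2.2 i hiF j hjF' hne') hxF hxF'
  have hσ : ∀ x ∈ S, ∃ i, Adm K (fun j => f j x) i ∧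
      ∀ j, (∃ F ∈ Fs, j ∈ F ∧ x ∈ Q F j) → i = j := by
    intro x hx
    by_cases h : ∃ i, ∃ F ∈ Fs, i ∈ F ∧ x ∈ Q F i
    · obtain ⟨i, hi⟩ := h
      refine ⟨i, ?_, fun j hj => huniq x i j hi hj⟩
      obtain ⟨F, hF, hiF, hxF⟩ := hi
      exact hadm F hF x ((hT F hF).1 i hxF) i hiF
    · obtain ⟨i, hi⟩ := Finite.exists_max (fun i => f i x)
      refine ⟨i, adm_of_max K _ i fun j hj => lt_of_le_of_ne (hi j) (hne x hx j i hj),
        fun j hj => absurd ⟨j, hj⟩ h⟩
  choose! σ hσ1 hσ2 using hσ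
  have hsub : ∀ F ∈ Fs, ∀ i ∈ F, Q F i ⊆ S.filter (fun x => σ x = i) := by
    intro F hF i hi x hx
    have hxS : x ∈ S := hA F hF ((hT F hF).1 i hx)
    exact Finset.mem_filter.mpr ⟨hxS, hσ2 x hxS i ⟨F, hF, hi, hx⟩⟩
  have hp : ∀ F ∈ Fs, ∀ i ∈ F,
      p F ∈ convexHull ℝ ((S.filter (fun x => σ x = i) : Finset (Pt d)) : Set (Pt d)) := by
    intro F hF i hi
    exact convexHull_mono (by exact_mod_cast hsub F hF i hi) ((hT F hF).2.1 i hi)
  refine ⟨Fintype.card V, fun k => S.filter (fun x => σ x = (Fintype.equivFin V).symm k),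
    (Fintype.equivFin V).symm, ⟨?_, ?_, ?_⟩, ?_⟩
  · intro k
    obtain ⟨F, hF, hkF⟩ := exists_facet K (K.vertex ((Fintype.equivFin V).symm k))
    have h1 := hp F ((hFs F).mpr hF) _ (hkF (Finset.mem_singleton_self _))
    have h2 := convexHull_nonempty_iff.mp ⟨_, h1⟩
    exact_mod_cast h2
  · intro k l hkl
    rw [Finset.disjoint_left]
    intro x hx hx'
    have h1 := (Finset.mem_filter.mp hx).2
    have h2 := (Finset.mem_filter.mp hx').2
    exact hkl ((Fintype.equivFin V).symm.injective (h1.symm.trans h2))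
  · intro x
    constructor
    · intro hx
      exact ⟨Fintype.equivFin V (σ x), Finset.mem_filter.mpr ⟨hx, by simp⟩⟩
    · rintro ⟨k, hk⟩
      exact (Finset.mem_filter.mp hk).1
  · intro I
    constructor
    · rintro ⟨y, hy⟩
      by_contra hI
      have hI0 : (I.map (Fintype.equivFin V).symm.toEmbedding).Nonempty := by
        rw [Finset.nonempty_iff_ne_empty]
        intro h
        rw [h] at hI
        exact hI hemp
      have hpos : ∀ i ∈ I.map (Fintype.equivFin V).symm.toEmbedding,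
          0 < ((I.map (Fintype.equivFin V).symm.toEmbedding).card : ℝ) * f i y -
            ∑ j ∈ I.map (Fintype.equivFin V).symm.toEmbedding, f j y := by
        intro i hi
        obtain ⟨k, hk, rfl⟩ := Finset.mem_map.mp hi
        have h1 : y ∈ convexHull ℝ ((S.filter (fun x => σ x = (Fintype.equivFin V).symm k) :
            Finset (Pt d)) : Set (Pt d)) := Set.mem_iInter₂.mp hy k hk
        have haff : IsAff (fun x =>
            ((I.map (Fintype.equivFin V).symm.toEmbedding).card : ℝ) *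
              f ((Fintype.equivFin V).symm k) x -
            ∑ j ∈ I.map (Fintype.equivFin V).symm.toEmbedding, f j x) := by
          have h2 := ((hf ((Fintype.equivFin V).symm k)).const_mul
            ((I.map (Fintype.equivFin V).symm.toEmbedding).card : ℝ)).add
            ((IsAff.sum (I.map (Fintype.equivFin V).symm.toEmbedding)
              fun j _ => hf j).const_mul (-1))
          refine (congrArg IsAff ?_).mp h2
          funext x
          ring
        refine haff.pos_hull ?_ y h1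
        intro x hx
        have hx' := Finset.mem_filter.mp (Finset.mem_coe.mp hx)
        have h3 := hσ1 x hx'.1 _ hI (by rw [hx'.2]; exact hi)
        rw [hx'.2] at h3
        exact h3
      have h4 := Finset.sum_pos hpos hI0
      rw [sum_D] at h4
      exact lt_irrefl _ h4
    · intro hI
      obtain ⟨F, hF, hIF⟩ := exists_facet K hI
      refine ⟨p F, Set.mem_iInter₂.mpr fun k hk => ?_⟩
      exact hp F ((hFs F).mpr hF) _ (hIF (Finset.mem_map_of_mem _ hk))

theorem main {V : Type} [Fintype V] [Nonempty V] (K : SComplex V) (d : ℕ)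
    (hd : K.facets.ncard ≤ d + 1) : IsTverberg K d := by
  classical
  have hfin : K.facets.Finite := Set.toFinite _
  have hmemFs : ∀ F, F ∈ hfin.toFinset ↔ F ∈ K.facets := fun F => by
    rw [Set.Finite.mem_toFinset]
  have hcardFs : hfin.toFinset.card ≤ d + 1 := by
    rw [← Set.ncard_eq_toFinset_card _ hfin]; exact hd
  obtain ⟨N, hN⟩ := exists_blocks K d hfin.toFinset hmemFs hcardFs
    ((d + 1) * (Fintype.card V * (d + 1)) + 1)
  refine ⟨N, fun S hS hcard => ?_⟩
  obtain ⟨A, f, h1, h2, h3, h4, h5⟩ := hN S hS hcard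
  obtain ⟨f', hf'1, hf'2, hf'3⟩ := perturb K S f h4
  exact assemble K S hfin.toFinset hmemFs A h1 h2 (fun F hF => h3 F hF) f' hf'1
    (fun F hF x hx i hi => hf'2 x (h1 F hF hx) i (h5 F hF x hx i hi)) hf'3

end Pool.Agent.Helper27.Nerve
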