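import Pool.Agent.Helper27.Nerve.Statement

/-!
Large sets in general position exist: points of the moment curve.
-/

set_option autoImplicit false

open Finset Polynomial

namespace Pool.Agent.Helper27.Nerve

/-- The points of the moment curve with integral parameters. -/
noncomputable def moment (d : ℕ) (t : ℕ) : Pt d :=
  WithLp.toLp 2 fun i : Fin d => (t : ℝ) ^ (i.val + 1)

theorem exists_general (d N : ℕ) (hd : 1 ≤ d) :
    ∃ S : Finset (Pt d), GeneralPosition S ∧ N < S.card := by
  classical
  have hinj : Function.Injective (moment d) := by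
    intro s t hst
    have h1 := congrArg (fun v : Pt d => v ⟨0, hd⟩) hst
    simp [moment] at h1
    exact h1
  refine ⟨(range (N + 1)).image (moment d), ?_, ?_⟩
  · rintro T hT hTc ⟨w, b, hw, hx⟩
    let p : ℝ[X] := ∑ i : Fin d, C (w i) * X ^ (i.val + 1) - C b
    have hp0 : p ≠ 0 := by
      intro hp
      apply hw
      ext i
      have h1 := congrArg (fun q : ℝ[X] => q.coeff (i.val + 1)) hp
      simp only [p, coeff_sub, finsetSum_coeff, coeff_C_mul, coeff_X_pow, coeff_zero,
        coeff_C_succ, sub_zero] at h1
      rw [Finset.sum_eq_single i] at h1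
      · simpa using h1
      · intro j _ hj
        rw [if_neg, mul_zero]
        intro h
        exact hj (Fin.ext (by omega))
      · intro h
        exact absurd (Finset.mem_univ _) h
    have hdeg : p.natDegree ≤ d := by
      refine (natDegree_sub_le _ _).trans (max_le ?_ ?_)
      · refine natDegree_sum_le_of_forall_le _ _ fun i _ => ?_
        exact (natDegree_C_mul_X_pow_le _ _).trans i.isLt
      · rw [natDegree_C]; exact Nat.zero_le _
    let R : Finset ℕ := (range (N + 1)).filter fun t => moment d t ∈ T
    have hRT : R.image (moment d) = T := by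
      ext x
      constructor
      · intro h
        obtain ⟨t, ht, rfl⟩ := Finset.mem_image.mp h
        exact (Finset.mem_filter.mp ht).2
      · intro h
        obtain ⟨t, ht, rfl⟩ := Finset.mem_image.mp (hT h)
        exact Finset.mem_image_of_mem _ (Finset.mem_filter.mpr ⟨ht, h⟩)
    have hRc : R.card = d + 1 := by
      rw [← hTc, ← hRT, Finset.card_image_of_injective _ hinj]
    refine hp0 (eq_zero_of_natDegree_lt_card_of_eval_eq_zero' p
      (R.image (fun t : ℕ => (t : ℝ))) ?_ ?_)
    · intro r hr
      obtain ⟨t, ht, rfl⟩ := Finset.mem_image.mp hr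
      have h1 := hx _ (Finset.mem_filter.mp ht).2
      rw [PiLp.inner_apply] at h1
      simp only [RCLike.inner_apply, conj_trivial, moment] at h1
      simp only [p, eval_sub, eval_finsetSum, eval_mul, eval_C, eval_pow, eval_X]
      rw [← h1, sub_eq_zero]
      exact Finset.sum_congr rfl fun i _ => mul_comm _ _
    · rw [Finset.card_image_of_injective _ Nat.cast_injective, hRc]
      omega
  · rw [Finset.card_image_of_injective _ hinj, Finset.card_range]
    omega

/-- A complex without vertices is not a Tverberg complex. -/
theorem not_isTverberg_of_isEmpty {V : Type} [IsEmpty V] (K : SComplex V) (d : ℕ) (hd : 1 ≤ d) :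
    ¬ IsTverberg K d := by
  rintro ⟨N, hN⟩
  obtain ⟨S, hS, hc⟩ := exists_general d N hd
  obtain ⟨n, P, e, hP, -⟩ := hN S hS hc
  obtain ⟨x, hx⟩ : S.Nonempty := Finset.card_pos.mp (by omega)
  obtain ⟨i, -⟩ := (hP.cover x).mp hx
  exact isEmptyElim (e i)

end Pool.Agent.Helper27.Nerve
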