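import Mathlib

/-!
Definitions for the statement: simplicial complexes, point sets in general position, nerves of
partitions, Tverberg complexes.
-/

set_option autoImplicit false

namespace Pool.Agent.Helper27.Nerve

/-- An abstract simplicial complex with vertex set `V`: a family of finite sets of vertices, closed
under passing to subsets, in which every vertex is a face. -/
structure SComplex (V : Type) where
  faces : Set (Finset V)
  down : ∀ {s t : Finset V}, s ∈ faces → t ⊆ s → t ∈ faces
  vertex : ∀ v : V, {v} ∈ faces

/-- The facets (inclusion-maximal faces). -/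
def SComplex.facets {V : Type} (K : SComplex V) : Set (Finset V) :=
  {F | F ∈ K.faces ∧ ∀ G ∈ K.faces, F ⊆ G → G = F}

/-- Points of `d`-dimensional Euclidean space. -/
abbrev Pt (d : ℕ) : Type := EuclideanSpace ℝ (Fin d)

/-- General position: no `d + 1` points of `S` lie on a common affine hyperplane. -/
def GeneralPosition {d : ℕ} (S : Finset (Pt d)) : Prop :=
  ∀ T ⊆ S, T.card = d + 1 → ¬ ∃ (w : Pt d) (b : ℝ), w ≠ 0 ∧ ∀ x ∈ T, inner ℝ w x = b

/-- `P 0, ..., P (n-1)` is a partition of `S` into nonempty classes. -/
structure IsPartition {d n : ℕ} (S : Finset (Pt d)) (P : Fin n → Finset (Pt d)) : Prop where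
  nonempty : ∀ i, (P i).Nonempty
  disjoint : ∀ i j, i ≠ j → Disjoint (P i) (P j)
  cover : ∀ x, x ∈ S ↔ ∃ i, x ∈ P i

/-- `I` is a face of the nerve of the convex hulls of the classes of `P`. -/
def NerveFace {d n : ℕ} (P : Fin n → Finset (Pt d)) (I : Finset (Fin n)) : Prop :=
  (⋂ i ∈ I, convexHull ℝ (P i : Set (Pt d))).Nonempty

/-- `K` is partition induced on `S`: the nerve of some partition of `S` is isomorphic to `K`. -/
def PartitionInduced {d : ℕ} {V : Type} (K : SComplex V) (S : Finset (Pt d)) : Prop :=
  ∃ (n : ℕ) (P : Fin n → Finset (Pt d)) (e : Fin n ≃ V), IsPartition S P ∧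
    ∀ I : Finset (Fin n), NerveFace P I ↔ I.map e.toEmbedding ∈ K.faces

/-- `K` is `d`-Tverberg: it is partition induced on every sufficiently large point set in general
position in `d`-dimensional space. -/
def IsTverberg {V : Type} (K : SComplex V) (d : ℕ) : Prop :=
  ∃ N : ℕ, ∀ S : Finset (Pt d), GeneralPosition S → N < S.card → PartitionInduced K S

end Pool.Agent.Helper27.Nerve
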